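import Pool.Agent.Run7.h869.HF.Main

/-!
# Products of hyperkähler varieties over finitely generated fields: Tate and Hodge
-/

set_option autoImplicit false
set_option linter.unusedSectionVars false

namespace Run7.h869.HF

open Matrix NumberField Run7.h457.MT Pool.Agent.N184.HK Pool.Agent.W401.Cheb Filter Topology
open Run7.h475.MT (t_SPANV t_LOGFIX t_LOGEX)

noncomputable section

variable {F : Type} [Field F] [CharZero F] {T : Type} [Fintype T] [DecidableEq T]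
  (V : Family F T)

/-! ## One extension for all products -/

theorem gal_one {S : Type} [Fintype S] [DecidableEq S] (τ : S → T) (ℓ : ℕ) [Fact ℓ.Prime]
    (i : ℕ) : V.gal τ ℓ i 1 = 1 := by
  unfold Family.gal
  simp only [map_one]
  exact ((Run7.h615.MT.t_KUN S (fun s => (V.X (τ s)).B.n) (fun s => (V.X (τ s)).d) i).1
    ℚ_[ℓ] (fun _ _ => 1) (fun _ _ => 1)).2.1

theorem gal_mul {S : Type} [Fintype S] [DecidableEq S] (τ : S → T) (ℓ : ℕ) [Fact ℓ.Prime]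
    (i : ℕ) (σ σ' : GK F) : V.gal τ ℓ i (σ * σ') = V.gal τ ℓ i σ * V.gal τ ℓ i σ' := by
  unfold Family.gal
  simp only [map_mul]
  exact ((Run7.h615.MT.t_KUN S (fun s => (V.X (τ s)).B.n) (fun s => (V.X (τ s)).d) i).1
    ℚ_[ℓ] _ _).1.symm

theorem galT_mul {S : Type} [Fintype S] [DecidableEq S] (τ : S → T) (ℓ : ℕ) [Fact ℓ.Prime]
    (j : ℕ) (σ σ' : GK F) : V.galT τ ℓ j (σ * σ') = V.galT τ ℓ j σ * V.galT τ ℓ j σ' := by
  unfold Family.galT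
  rw [gal_mul, map_mul, mul_pow, smul_mul_smul_comm]

theorem galT_one {S : Type} [Fintype S] [DecidableEq S] (τ : S → T) (ℓ : ℕ) [Fact ℓ.Prime]
    (j : ℕ) : V.galT τ ℓ j 1 = 1 := by
  unfold Family.galT
  rw [gal_one, map_one, one_pow, one_smul]

theorem galT_pow {S : Type} [Fintype S] [DecidableEq S] (τ : S → T) (ℓ : ℕ) [Fact ℓ.Prime]
    (j : ℕ) (σ : GK F) (k : ℕ) : V.galT τ ℓ j (σ ^ k) = V.galT τ ℓ j σ ^ k := by
  induction k with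
  | zero => rw [pow_zero, pow_zero, galT_one]
  | succ k ih => rw [pow_succ, pow_succ, galT_mul, ih]

/-- A matrix near `1` fixes the vectors fixed by a power. -/
theorem fix_of_pow {κ : Type} [Fintype κ] [DecidableEq κ] {ℓ : ℕ} [Fact ℓ.Prime]
    {g : Matrix κ κ ℚ_[ℓ]} (hg : NearOne 2 g) {k : ℕ} (hk : k ≠ 0) {x : κ → ℚ_[ℓ]}
    (hx : (g ^ k) *ᵥ x = x) : g *ᵥ x = x := by
  obtain ⟨L, hL⟩ := t_LOGEX ℓ κ g hg
  refine t_LOGFIX ℓ κ g L hg hL x ?_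
  have h1 := Run7.h615.MT.log_pow hL k
  have h2 : ∀ n : ℕ, ((g ^ k) ^ ℓ ^ n) *ᵥ x = x := by
    intro n
    generalize ℓ ^ n = m
    induction m with
    | zero => rw [pow_zero, one_mulVec]
    | succ m ih => rw [pow_succ, ← mulVec_mulVec, hx, ih]
  have h3 : Continuous fun A : Matrix κ κ ℚ_[ℓ] => A *ᵥ x :=
    continuous_id.matrix_mulVec continuous_const
  have h4 : Tendsto (fun n : ℕ => (((ℓ : ℚ_[ℓ]) ^ n)⁻¹ • ((g ^ k) ^ ℓ ^ n - 1)) *ᵥ x) atTop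
      (𝓝 (((k : ℚ_[ℓ]) • L) *ᵥ x)) := (h3.tendsto _).comp h1
  have h5 : ((k : ℚ_[ℓ]) • L) *ᵥ x = 0 := by
    refine tendsto_nhds_unique h4 (tendsto_const_nhds.congr fun n => ?_)
    rw [smul_mulVec, sub_mulVec, h2, one_mulVec, sub_self, smul_zero]
  rw [smul_mulVec] at h5
  exact (smul_eq_zero.1 h5).resolve_left (Nat.cast_ne_zero.2 hk)

/-- One subgroup of finite index fixes all Tate classes on all products. -/
theorem uniform (ℓ : ℕ) [Fact ℓ.Prime] : ∃ Δ : Subgroup (GK F), Δ.FiniteIndex ∧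
    ∀ (S : Type) [Fintype S] [DecidableEq S] (τ : S → T) (j : ℕ) (x : V.Ix τ (2 * j) → ℚ_[ℓ]),
      V.IsTate τ ℓ j x → V.Fixed τ ℓ j Δ x := by
  obtain ⟨Δ₁, h₁, hΔ₁⟩ := (V.E ℓ).logRel 2
  obtain ⟨Δ₂, h₂, hΔ₂⟩ := cyc_near' (F := F) (ℓ := ℓ) 2
  refine ⟨Δ₁ ⊓ Δ₂, inferInstance, ?_⟩
  intro S _ _ τ j x ⟨Δ, hΔ, hx⟩ σ hσ
  have hn : NearOne 2 (V.galT τ ℓ j σ) := by
    refine Run7.h869.MT.nearOne_smul ?_ (hΔ₂ σ hσ.2) j
    exact (Run7.h615.MT.t_KUN S (fun s => (V.X (τ s)).B.n) (fun s => (V.X (τ s)).d)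
      (2 * j)).2.2 ℓ 2 (fun s j => (V.E ℓ).G (τ s) j σ)
      fun s j hj => (hΔ₁ σ hσ.1 (τ s) j hj).1
  obtain ⟨k, hk1, _, hk3⟩ := Subgroup.exists_pow_mem_of_index_ne_zero (H := Δ)
    Subgroup.FiniteIndex.index_ne_zero σ
  refine fix_of_pow hn (k := k) (by omega) ?_
  rw [← galT_pow]
  exact hx _ hk3

/-! ## Tate and Hodge -/

variable {S : Type} [Fintype S] [DecidableEq S] (τ : S → T)

/-- `φ ∘ ladic a = φ 1 • a`. -/
theorem functional_ladic {ι : Type} {ℓ : ℕ} [Fact ℓ.Prime] (φ : ℚ_[ℓ] →ₗ[ℚ] ℚ) (v : ι → ℚ) :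
    (fun i => φ (ladic ℓ v i)) = φ 1 • v := by
  funext i
  show φ ((v i : ℚ) : ℚ_[ℓ]) = φ 1 * v i
  have h2 : ((v i : ℚ) : ℚ_[ℓ]) = (v i) • (1 : ℚ_[ℓ]) := by
    rw [Algebra.smul_def, mul_one]
    rfl
  rw [h2, map_smul, smul_eq_mul, mul_comm]

theorem ladic_add {ι : Type} {ℓ : ℕ} [Fact ℓ.Prime] (a b : ι → ℚ) :
    ladic ℓ (a + b) = ladic ℓ a + ladic ℓ b := by
  funext k
  exact Rat.cast_add _ _

theorem ladic_smul {ι : Type} {ℓ : ℕ} [Fact ℓ.Prime] (c : ℚ) (a : ι → ℚ) :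
    ladic ℓ (c • a) = (c : ℚ_[ℓ]) • ladic ℓ a := by
  funext k
  exact Rat.cast_mul _ _

theorem ladic_zero {ι : Type} {ℓ : ℕ} [Fact ℓ.Prime] : ladic ℓ (0 : ι → ℚ) = 0 := by
  funext k
  exact Rat.cast_zero

variable {V τ} {j : ℕ} (Z : Cycles V τ j)

/-- The classes of cycles that are invariant under `Δ`. -/
def Cycles.inv (ℓ : ℕ) [Fact ℓ.Prime] (Δ : Subgroup (GK F)) :
    Submodule ℚ (V.Ix τ (2 * j) → ℚ) where
  carrier := {v | v ∈ Z.A ∧ ∀ σ ∈ Δ, V.galT τ ℓ j σ *ᵥ ladic ℓ v = ladic ℓ v}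
  zero_mem' := ⟨Z.A.zero_mem, fun σ _ => by rw [ladic_zero, mulVec_zero]⟩
  add_mem' := fun ha hb => ⟨Z.A.add_mem ha.1 hb.1, fun σ hσ => by
    rw [ladic_add, mulVec_add, ha.2 σ hσ, hb.2 σ hσ]⟩
  smul_mem' := fun c a ha => ⟨Z.A.smul_mem c ha.1, fun σ hσ => by
    rw [ladic_smul, mulVec_smul, ha.2 σ hσ]⟩

/-- Functionals and the Galois action on the span of the classes of cycles. -/
theorem Cycles.functional (ℓ : ℕ) [Fact ℓ.Prime] (σ : GK F) {x : V.Ix τ (2 * j) → ℚ_[ℓ]}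
    (hx : x ∈ vecSpan ℚ_[ℓ] (Z.A : Set (V.Ix τ (2 * j) → ℚ))) (φ : ℚ_[ℓ] →ₗ[ℚ] ℚ) :
    V.galT τ ℓ j σ *ᵥ ladic ℓ (fun i => φ (x i)) =
      ladic ℓ fun i => φ ((V.galT τ ℓ j σ *ᵥ x) i) := by
  unfold vecSpan at hx
  induction hx using Submodule.span_induction generalizing φ with
  | mem x h =>
    obtain ⟨a, ha, rfl⟩ := h
    change V.galT τ ℓ j σ *ᵥ ladic ℓ (fun i => φ (ladic ℓ a i)) =
      ladic ℓ fun i => φ ((V.galT τ ℓ j σ *ᵥ ladic ℓ a) i)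
    have h1 := Z.compat ℓ σ ⟨a, ha⟩
    rw [h1, functional_ladic, functional_ladic, ladic_smul, ladic_smul, mulVec_smul, h1]
  | zero =>
    have e : (fun i => φ ((0 : V.Ix τ (2 * j) → ℚ_[ℓ]) i)) = 0 := by
      funext i
      exact map_zero φ
    rw [mulVec_zero, e, ladic_zero, mulVec_zero]
  | add x y _ _ hx hy =>
    have e : ∀ x y : V.Ix τ (2 * j) → ℚ_[ℓ], (fun i => φ ((x + y) i)) =
        (fun i => φ (x i)) + fun i => φ (y i) := by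
      intro x y
      funext i
      exact map_add φ _ _
    rw [e, ladic_add, mulVec_add, mulVec_add, e, ladic_add, hx, hy]
  | smul c x _ hx =>
    have h1 := hx (φ ∘ₗ LinearMap.mulLeft ℚ c)
    rw [mulVec_smul]
    exact h1

theorem Cycles.tateOver_of_hodge (hZ : Z.Hodge) (ℓ : ℕ) [Fact ℓ.Prime] (Δ : Subgroup (GK F))
    (hΔ : Δ.FiniteIndex) : Z.TateOver ℓ Δ := by
  intro x hx
  have h1 : x ∈ vecSpan ℚ_[ℓ] (Z.A : Set (V.Ix τ (2 * j) → ℚ)) := by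
    have h2 := (isTate_iff V τ ℓ j x).1 ⟨Δ, hΔ, hx⟩
    rw [t_SPANV] at h2 ⊢
    exact fun φ => hZ _ (h2 φ)
  have h3 : x ∈ vecSpan ℚ_[ℓ] (Z.inv ℓ Δ : Set (V.Ix τ (2 * j) → ℚ)) := by
    rw [t_SPANV]
    intro φ
    refine ⟨(t_SPANV _ _ _ _).1 h1 φ, fun σ hσ => ?_⟩
    rw [Z.functional ℓ σ h1 φ, hx σ hσ]
  unfold vecSpan at h3
  refine Submodule.span_mono ?_ h3
  rintro _ ⟨a, ⟨ha, hinv⟩, rfl⟩
  refine ⟨⟨a, ha⟩, fun σ hσ => ?_, rfl⟩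
  apply Subtype.ext
  apply ladic_inj (ℓ := ℓ)
  exact (Z.compat ℓ σ ⟨a, ha⟩).symm.trans (hinv σ hσ)

/-- The set of the classes of cycles. -/
theorem Cycles.span_eq (ℓ : ℕ) [Fact ℓ.Prime] :
    Submodule.span ℚ_[ℓ] {x | ∃ a : Z.A, x = ladic ℓ a.1} =
      vecSpan ℚ_[ℓ] (Z.A : Set (V.Ix τ (2 * j) → ℚ)) := by
  rw [← span_ladic]
  congr 1
  ext x
  constructor
  · rintro ⟨a, rfl⟩
    exact ⟨a.1, a.2, rfl⟩
  · rintro ⟨a, ha, rfl⟩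
    exact ⟨⟨a, ha⟩, rfl⟩

theorem Cycles.hodge_of_tate (ℓ : ℕ) [Fact ℓ.Prime] (h : Z.Tate ℓ) : Z.Hodge := by
  intro v hv
  have h1 : V.IsTate τ ℓ j (ladic ℓ v) := by
    rw [isTate_iff]
    unfold vecSpan
    exact Submodule.subset_span ⟨v, hv, rfl⟩
  have h2 := h _ h1
  rw [Z.span_eq] at h2
  exact mem_of_ladic _ _ h2

/-- **Tate and Hodge.** -/
theorem Cycles.tfae : [Z.Hodge, ∀ (ℓ : ℕ) [Fact ℓ.Prime] (Δ : Subgroup (GK F)),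
      Δ.FiniteIndex → Z.TateOver ℓ Δ, ∀ (ℓ : ℕ) [Fact ℓ.Prime], Z.Tate ℓ,
      ∃ (ℓ : ℕ) (_ : Fact ℓ.Prime), Z.Tate ℓ].TFAE := by
  tfae_have 1 → 2 := fun h ℓ _ Δ hΔ => Z.tateOver_of_hodge h ℓ Δ hΔ
  tfae_have 2 → 3 := by
    intro h ℓ _ x ⟨Δ, hΔ, hx⟩
    refine Submodule.span_mono ?_ (h ℓ Δ hΔ x hx)
    rintro _ ⟨a, _, rfl⟩
    exact ⟨a, rfl⟩
  tfae_have 3 → 4 := fun h => ⟨2, ⟨Nat.prime_two⟩, h 2⟩
  tfae_have 4 → 1 := by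
    rintro ⟨ℓ, hℓ, h⟩
    exact Z.hodge_of_tate ℓ h
  tfae_finish

end

end Run7.h869.HF
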