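import Pool.Agent.Run7.h457.MT.Family

/-!
# Products of hyperkähler varieties over finitely generated fields: definitions
-/

set_option autoImplicit false
set_option linter.unusedSectionVars false

namespace Run7.h869.HF

open Matrix NumberField Run7.h457.MT Pool.Agent.N184.HK Pool.Agent.W401.Cheb

noncomputable section

/-- The rational cohomology `B` of a complex projective hyperkähler variety of real dimension `d` (of any
deformation type), with the action of `so(H²)` and the Hodge structures `W`. -/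
structure HKC where
  d : ℕ
  two_le : 2 ≤ d
  B : LLV d
  W : B.Hodge

/-- The data `B`, for another name `d'` of the dimension `d`. -/
def copy {d d' : ℕ} (B : LLV d) (h : d' = d) : LLV d' where
  n := B.n
  q := B.q
  symm := B.symm
  nondeg := B.nondeg
  dim := B.dim
  ρ := B.ρ
  ρ_two := B.ρ_two
  bracket := fun i hi => B.bracket i (hi.trans_eq h)

/-- The matrices of an action of the absolute Galois group of `F` on the `H^i(X_t, ℚ_ℓ)`, for a
finite family of hyperkähler varieties `X t`. -/
abbrev Rep (F : Type) [Field F] {T : Type} (X : T → HKC) (ℓ : ℕ) [Fact ℓ.Prime] : Type :=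
  ∀ t i, GK F →* Matrix (Fin ((X t).B.n i)) (Fin ((X t).B.n i)) ℚ_[ℓ]

/-- A family of projective hyperkähler varieties `Y t` over a number field `K`, with the same rational
cohomology as the complex varieties `X t`: the `ℓ`-adic cohomology and the crystalline cohomology
of the reductions (`Y t`), the comparison `C t` of the rational and the `ℓ`-adic cohomology, and the
Hodge-Tate decompositions at the places above `ℓ`. -/
structure Fibre {T : Type} (X : T → HKC) (ℓ : ℕ) [Fact ℓ.Prime] (K : Type) [Field K]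
    [NumberField K] where
  Y : T → HKVariety K (PadicAlgCl ℓ)
  hd : ∀ t, (Y t).d = (X t).d
  C : ∀ t, Artin (Y t) (copy (X t).B (hd t))
  sen : ∀ t (Q : Ideal (𝓞 (AlgebraicClosure K))), Q.IsMaximal →
    (ℓ : 𝓞 (AlgebraicClosure K)) ∈ Q → Nonempty (Sen (C t).G Q)

/-- The representations of the absolute Galois group of `K` on the cohomology of the `Y t`. -/
def Fibre.G {T : Type} {X : T → HKC} {ℓ : ℕ} [Fact ℓ.Prime] {K : Type} [Field K] [NumberField K]
    (D : Fibre X ℓ K) : Rep K X ℓ :=
  fun t i => (D.C t).G i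

/-- The `ℓ`-adic cohomology of a finite family of projective hyperkähler varieties `X t` over a
subfield `F` of the field of complex numbers, finitely generated over `ℚ`: the matrices `G t i σ` of
the action of `σ` on `H^i(X_t, ℚ_ℓ)` (for bases of the rational cohomology of `X_t(ℂ)`). By a theorem
of Serre some model of the family over a scheme of finite type over `ℚ` has a fibre `D` over a number
field `K` such that the Galois groups of `F` and `K` have the same image in the group of automorphisms
of the cohomology of the `X_t` and of `ℚ_ℓ(1)` (`image`; one may take `K = F` if `F` is a number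
field). `two` is the Mumford-Tate conjecture for the sum of the `H²(X_t)`, in the form of Lie
algebras (André, Commelin). -/
structure Etale (F : Type) [Field F] {T : Type} [Fintype T] [DecidableEq T] (X : T → HKC)
    (ℓ : ℕ) [Fact ℓ.Prime] where
  G : Rep F X ℓ
  K : Type
  [field : Field K]
  [numberField : NumberField K]
  D : Fibre X ℓ K
  image : ∀ γ : GK F, ∃ σ : GK K, cyc F ℓ γ = cyc K ℓ σ ∧ ∀ t, ∀ i ≤ (X t).d, G t i γ = D.G t i σ
  two : MTTwo (fun t => (X t).B) (fun t => (X t).W) fun t i σ => G t i σ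

/-- A finite family of projective hyperkähler varieties over the finitely generated field
`F ⊆ ℂ`, with the `ℓ`-adic cohomology for all prime numbers `ℓ`. -/
structure Family (F : Type) [Field F] (T : Type) [Fintype T] [DecidableEq T] where
  X : T → HKC
  E : ∀ (ℓ : ℕ) [Fact ℓ.Prime], Etale F X ℓ

/-- The index set of the basis of `H^i` of the product of the varieties `X s` (Künneth formula). -/
def Ix {S : Type} [Fintype S] [DecidableEq S] (X : S → HKC) (i : ℕ) : Type :=
  KInd (fun s => (X s).B.n) (fun s => (X s).d) i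

instance {S : Type} [Fintype S] [DecidableEq S] (X : S → HKC) (i : ℕ) : Fintype (Ix X i) :=
  inferInstanceAs (Fintype (KInd (fun s => (X s).B.n) (fun s => (X s).d) i))

instance {S : Type} [Fintype S] [DecidableEq S] (X : S → HKC) (i : ℕ) : DecidableEq (Ix X i) :=
  inferInstanceAs (DecidableEq (KInd (fun s => (X s).B.n) (fun s => (X s).d) i))

/-- The operator on `H^i(ℂ)` of the product which is `p` on the part of type `(p, q)`. -/
def hodgeOp {S : Type} [Fintype S] [DecidableEq S] (X : S → HKC) (i : ℕ) :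
    Matrix (Ix X i) (Ix X i) ℂ :=
  dkun (n := fun s => (X s).B.n) (fun s => (X s).d) i fun s j => ((X s).W.V j).D

/-- The rational class `v` of degree `2 j` on the product of the `X s` is a Hodge class: it lies in
`H^(j, j)`. -/
def IsHodge {S : Type} [Fintype S] [DecidableEq S] (X : S → HKC) (j : ℕ)
    (v : Ix X (2 * j) → ℚ) : Prop :=
  hodgeOp X (2 * j) *ᵥ (fun k => (v k : ℂ)) = (j : ℂ) • fun k => (v k : ℂ)

section

variable {F : Type} [Field F] {T : Type} [Fintype T] [DecidableEq T] (V : Family F T)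
  {S : Type} [Fintype S] [DecidableEq S] (τ : S → T)

/-- The index set of the basis of `H^i` of the product `P` of the varieties `X (τ s)`, `s ∈ S`. -/
abbrev Family.Ix (i : ℕ) : Type := HF.Ix (fun s => V.X (τ s)) i

/-- The matrix of the action of `σ` on `H^i(P, ℚ_ℓ)` (Künneth formula). -/
def Family.gal (ℓ : ℕ) [Fact ℓ.Prime] (i : ℕ) (σ : GK F) :
    Matrix (V.Ix τ i) (V.Ix τ i) ℚ_[ℓ] :=
  kun (n := fun s => (V.X (τ s)).B.n) (fun s => (V.X (τ s)).d) i fun s j => (V.E ℓ).G (τ s) j σ

/-- The matrix of the action of `σ` on `H^(2 j)(P, ℚ_ℓ(j))`. -/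
def Family.galT (ℓ : ℕ) [Fact ℓ.Prime] (j : ℕ) (σ : GK F) :
    Matrix (V.Ix τ (2 * j)) (V.Ix τ (2 * j)) ℚ_[ℓ] :=
  cyc F ℓ σ ^ j • V.gal τ ℓ (2 * j) σ

/-- The class `x ∈ H^(2 j)(P, ℚ_ℓ(j))` is invariant under the subgroup `Δ` of the Galois group of `F`. -/
def Family.Fixed (ℓ : ℕ) [Fact ℓ.Prime] (j : ℕ) (Δ : Subgroup (GK F))
    (x : V.Ix τ (2 * j) → ℚ_[ℓ]) : Prop :=
  ∀ σ ∈ Δ, V.galT τ ℓ j σ *ᵥ x = x

/-- The class `x ∈ H^(2 j)(P, ℚ_ℓ(j))` is a Tate class: it is invariant under some subgroup of finite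
index. -/
def Family.IsTate (ℓ : ℕ) [Fact ℓ.Prime] (j : ℕ) (x : V.Ix τ (2 * j) → ℚ_[ℓ]) : Prop :=
  ∃ Δ : Subgroup (GK F), Δ.FiniteIndex ∧ V.Fixed τ ℓ j Δ x

/-- The `ℓ`-adic class of the rational class `v`. -/
def ladic {ι : Type} (ℓ : ℕ) [Fact ℓ.Prime] (v : ι → ℚ) : ι → ℚ_[ℓ] := fun k => (v k : ℚ_[ℓ])

/-- The cycles of codimension `j` on the product `P`, over an algebraic closure of `F`: `A` is the
`ℚ`-span of their classes in `H^(2 j)(P(ℂ), ℚ(j))`, which are Hodge classes. The Galois group of `F`
acts on `A` by conjugation of the cycles, and this is compatible with the action on the classes in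
`H^(2 j)(P, ℚ_ℓ(j))`, for all `ℓ`. -/
structure Cycles (j : ℕ) where
  A : Submodule ℚ (V.Ix τ (2 * j) → ℚ)
  hodge : ∀ a ∈ A, IsHodge (fun s => V.X (τ s)) j a
  conj : GK F → A → A
  compat : ∀ (ℓ : ℕ) [Fact ℓ.Prime] (σ : GK F) (a : A),
    V.galT τ ℓ j σ *ᵥ ladic ℓ (a : V.Ix τ (2 * j) → ℚ) =
      ladic ℓ (conj σ a : V.Ix τ (2 * j) → ℚ)

variable {V τ}

/-- The Hodge conjecture for `P` in codimension `j`. -/
def Cycles.Hodge {j : ℕ} (Z : Cycles V τ j) : Prop :=
  ∀ v : V.Ix τ (2 * j) → ℚ, IsHodge (fun s => V.X (τ s)) j v → v ∈ Z.A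

/-- The Tate conjecture for `P` in codimension `j`, over the extension of `F` that belongs to the
subgroup `Δ` of the Galois group: the classes in `H^(2 j)(P, ℚ_ℓ(j))` that are invariant under `Δ` are
linear combinations of classes of cycles that are invariant under `Δ`. -/
def Cycles.TateOver {j : ℕ} (Z : Cycles V τ j) (ℓ : ℕ) [Fact ℓ.Prime] (Δ : Subgroup (GK F)) :
    Prop :=
  ∀ x, V.Fixed τ ℓ j Δ x →
    x ∈ Submodule.span ℚ_[ℓ] {x | ∃ a : Z.A, (∀ σ ∈ Δ, Z.conj σ a = a) ∧ x = ladic ℓ a.1}

/-- The Tate conjecture for `P` in codimension `j`, over the algebraic closure of `F`: the Tate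
classes are linear combinations of classes of cycles. -/
def Cycles.Tate {j : ℕ} (Z : Cycles V τ j) (ℓ : ℕ) [Fact ℓ.Prime] : Prop :=
  ∀ x, V.IsTate τ ℓ j x → x ∈ Submodule.span ℚ_[ℓ] {x | ∃ a : Z.A, x = ladic ℓ a.1}

end

end

end Run7.h869.HF
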