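import Pool.Agent.Run7.h869.HF.Defs
import Pool.Agent.Run7.h411.Cft7

/-!
# Products of hyperkähler varieties over finitely generated fields: Tate classes and Hodge classes
-/

set_option autoImplicit false
set_option linter.unusedSectionVars false

namespace Run7.h869.HF

open Matrix NumberField Run7.h457.MT Pool.Agent.N184.HK Pool.Agent.W401.Cheb Filter Topology
open Run7.h475.MT (t_SPANV t_LOGFIX t_LOGEX)

noncomputable section

attribute [instance] Etale.field Etale.numberField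

section fam

variable {F : Type} [Field F] {T : Type} [Fintype T] [DecidableEq T] {X : T → HKC} {ℓ : ℕ}
  [Fact ℓ.Prime] (E : Etale F X ℓ)

/-- The relation between the logarithms. -/
theorem Etale.logRel : LogRel (fun t => (X t).B) E.G := by
  have h1 : LogRel (fun t => copy (X t).B (E.D.hd t)) E.G :=
    logRel_of_image (K := E.K) (X := E.D.Y) (B := fun t => copy (X t).B (E.D.hd t))
      (fun t => (E.D.C t).old) (Run7.h411.Cft.cft E.K ℓ)
      (fun t Q hQ h => by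
        obtain ⟨s⟩ := E.D.sen t Q hQ h
        exact ⟨⟨s.J, s.skew, s.Θ, s.hΘ, s.sen⟩⟩)
      E.G (fun γ => by
        obtain ⟨σ, -, h⟩ := E.image γ
        exact ⟨σ, fun t i hi => h t i (hi.trans_eq (E.D.hd t))⟩)
  intro N
  obtain ⟨Δ, hΔ, h⟩ := h1 N
  exact ⟨Δ, hΔ, fun σ hσ t i hi => h σ hσ t i (hi.trans_eq (E.D.hd t).symm)⟩

/-- The multiplier of the form is the inverse square of the cyclotomic character. -/
theorem Etale.form (t : T) (σ : GK F) :
    (E.G t 2 σ)ᵀ * (X t).B.q.map (algebraMap ℚ ℚ_[ℓ]) * E.G t 2 σ =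
      (cyc F ℓ σ ^ 2)⁻¹ • (X t).B.q.map (algebraMap ℚ ℚ_[ℓ]) := by
  obtain ⟨s, h1, h2⟩ := E.image σ
  rw [h1, h2 t 2 (X t).two_le]
  exact form_cyc (E.D.C t).old s

theorem open_finite' [CharZero F] {U : Subgroup (GK F)} (hU : IsOpen (U : Set (GK F))) : U.FiniteIndex := by
  have : CompactSpace (GK F) := inferInstance
  have := U.quotient_finite_of_isOpen hU
  exact Subgroup.finiteIndex_of_finite_quotient

/-- Near `1` the cyclotomic character is near `1`. -/
theorem cyc_near' [CharZero F] (N : ℕ) : ∃ Δ : Subgroup (GK F), Δ.FiniteIndex ∧ ∀ σ ∈ Δ,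
    ‖cyc F ℓ σ - 1‖ ≤ ((ℓ : ℝ) ^ N)⁻¹ := by
  have h1 : Continuous fun σ : GK F => ‖cyc F ℓ σ - 1‖ :=
    ((cyc_cont F ℓ).sub continuous_const).norm
  have h2 : ‖cyc F ℓ 1 - 1‖ < ((ℓ : ℝ) ^ N)⁻¹ := by
    rw [map_one, sub_self, norm_zero]
    have := (Fact.out : ℓ.Prime).pos
    positivity
  have h3 := h1.continuousAt.eventually (gt_mem_nhds h2)
  obtain ⟨U, hU, hUO⟩ := exists_open h3
  exact ⟨U, open_finite' hU, fun σ hσ => (hUO hσ).le⟩

end fam

section ladic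

variable {ι : Type} [Fintype ι] {ℓ : ℕ} [Fact ℓ.Prime]

/-- The `ℚ_ℓ`-span of a set of rational classes. -/
theorem span_ladic (A : Set (ι → ℚ)) :
    Submodule.span ℚ_[ℓ] {x | ∃ a ∈ A, x = ladic ℓ a} = vecSpan ℚ_[ℓ] A := by
  unfold vecSpan
  congr 1
  ext x
  constructor
  · rintro ⟨a, ha, rfl⟩
    exact ⟨a, ha, rfl⟩
  · rintro ⟨a, ha, rfl⟩
    exact ⟨a, ha, rfl⟩

theorem ladic_inj : Function.Injective (ladic ℓ : (ι → ℚ) → ι → ℚ_[ℓ]) := by
  intro a b h
  funext k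
  exact Rat.cast_injective (congrFun h k)

/-- A rational vector in the `ℚ_ℓ`-span of a rational subspace lies in the subspace. -/
theorem mem_of_ladic (A : Submodule ℚ (ι → ℚ)) (v : ι → ℚ)
    (h : ladic ℓ v ∈ vecSpan ℚ_[ℓ] (A : Set (ι → ℚ))) : v ∈ A := by
  rw [t_SPANV] at h
  obtain ⟨φ, hφ⟩ : ∃ φ : ℚ_[ℓ] →ₗ[ℚ] ℚ, φ 1 ≠ 0 := by
    by_contra hne
    push Not at hne
    exact one_ne_zero (α := ℚ_[ℓ]) (Run7.h475.MT.eq_zero_of_functionals hne)
  have h1 := h φ
  have e : (fun i => φ (ladic ℓ v i)) = φ 1 • v := by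
    funext i
    show φ ((v i : ℚ) : ℚ_[ℓ]) = φ 1 * v i
    have h2 : ((v i : ℚ) : ℚ_[ℓ]) = (v i) • (1 : ℚ_[ℓ]) := by
      rw [Algebra.smul_def, mul_one]
      rfl
    rw [h2, map_smul, smul_eq_mul, mul_comm]
  rw [e] at h1
  have h2 := A.smul_mem (φ 1)⁻¹ h1
  rwa [smul_smul, inv_mul_cancel₀ hφ, one_smul] at h2

/-- Rational vectors which are linearly independent over `ℚ` are so over `ℚ_ℓ`. -/
theorem ladic_indep {κ : Type} (a : κ → ι → ℚ) (ha : LinearIndependent ℚ a) :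
    LinearIndependent ℚ_[ℓ] fun k => ladic ℓ (a k) := by
  rw [linearIndependent_iff'] at ha ⊢
  intro s g hg k hk
  apply Run7.h475.MT.eq_zero_of_functionals
  intro φ
  refine ha s (fun k => φ (g k)) ?_ k hk
  funext i
  have h1 := congrArg φ (congrFun hg i)
  rw [Finset.sum_apply, map_sum] at h1
  rw [Finset.sum_apply]
  refine Eq.trans (Finset.sum_congr rfl fun k _ => ?_) (h1.trans (map_zero φ))
  rw [Pi.smul_apply, Pi.smul_apply, smul_eq_mul, smul_eq_mul]
  show φ (g k) * a k i = φ (g k * ((a k i : ℚ) : ℚ_[ℓ]))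
  rw [mul_comm (g k)]
  have h2 : ((a k i : ℚ) : ℚ_[ℓ]) * g k = (a k i) • g k := by
    rw [Algebra.smul_def]
    rfl
  rw [h2, map_smul, smul_eq_mul, mul_comm]

/-- The dimension of the `ℚ_ℓ`-span of a rational subspace. -/
theorem finrank_vecSpan (A : Submodule ℚ (ι → ℚ)) :
    Module.finrank ℚ_[ℓ] (vecSpan ℚ_[ℓ] (A : Set (ι → ℚ))) = Module.finrank ℚ A := by
  classical
  let b := Module.finBasis ℚ A
  have h1 : LinearIndependent ℚ fun k => ((b k : A) : ι → ℚ) :=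
    b.linearIndependent.map' A.subtype (Submodule.ker_subtype A)
  have h2 := ladic_indep (ℓ := ℓ) _ h1
  have h3 : vecSpan ℚ_[ℓ] (A : Set (ι → ℚ)) =
      Submodule.span ℚ_[ℓ] (Set.range fun k => ladic ℓ ((b k : A) : ι → ℚ)) := by
    apply le_antisymm
    · unfold vecSpan
      rw [Submodule.span_le]
      rintro _ ⟨a, ha, rfl⟩
      have h4 : a = ∑ k, b.repr ⟨a, ha⟩ k • ((b k : A) : ι → ℚ) := by
        have h5 := congrArg A.subtype (b.sum_repr ⟨a, ha⟩)
        rw [map_sum] at h5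
        simpa using h5.symm
      have h6 : (fun i => algebraMap ℚ ℚ_[ℓ] (a i)) =
          ∑ k, (b.repr ⟨a, ha⟩ k : ℚ_[ℓ]) • ladic ℓ ((b k : A) : ι → ℚ) := by
        funext i
        conv_lhs => rw [h4]
        rw [Finset.sum_apply, Finset.sum_apply, map_sum]
        refine Finset.sum_congr rfl fun k _ => ?_
        rw [Pi.smul_apply, Pi.smul_apply, smul_eq_mul, smul_eq_mul, map_mul]
        rfl
      show (fun i => algebraMap ℚ ℚ_[ℓ] (a i)) ∈ _
      rw [h6]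
      exact Submodule.sum_mem _ fun k _ => Submodule.smul_mem _ _
        (Submodule.subset_span ⟨k, rfl⟩)
    · rw [Submodule.span_le]
      rintro _ ⟨k, rfl⟩
      exact Submodule.subset_span ⟨_, (b k).2, rfl⟩
  rw [h3, finrank_span_eq_card h2, Fintype.card_fin]

end ladic

section main

/-- The Hodge classes form a rational subspace. -/
def hodgeSub {S : Type} [Fintype S] [DecidableEq S] (X : S → HKC) (j : ℕ) :
    Submodule ℚ (Ix X (2 * j) → ℚ) where
  carrier := {v | IsHodge X j v}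
  zero_mem' := by
    have e : (fun k => (((0 : Ix X (2 * j) → ℚ) k : ℚ) : ℂ)) = 0 := by
      funext k
      simp
    show hodgeOp X (2 * j) *ᵥ (fun k => (((0 : Ix X (2 * j) → ℚ) k : ℚ) : ℂ)) =
      (j : ℂ) • fun k => (((0 : Ix X (2 * j) → ℚ) k : ℚ) : ℂ)
    rw [e, mulVec_zero, smul_zero]
  add_mem' := by
    intro a b ha hb
    have e : (fun k => (((a + b : Ix X (2 * j) → ℚ) k : ℚ) : ℂ)) =
        (fun k => ((a k : ℚ) : ℂ)) + fun k => ((b k : ℚ) : ℂ) := by
      funext k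
      simp
    show hodgeOp X (2 * j) *ᵥ (fun k => (((a + b : Ix X (2 * j) → ℚ) k : ℚ) : ℂ)) =
      (j : ℂ) • fun k => (((a + b : Ix X (2 * j) → ℚ) k : ℚ) : ℂ)
    rw [e, mulVec_add, smul_add]
    exact congrArg₂ (· + ·) ha hb
  smul_mem' := by
    intro c a ha
    have e : (fun k => (((c • a : Ix X (2 * j) → ℚ) k : ℚ) : ℂ)) =
        (c : ℂ) • (fun k => ((a k : ℚ) : ℂ)) := by
      funext k
      simp
    show hodgeOp X (2 * j) *ᵥ (fun k => (((c • a : Ix X (2 * j) → ℚ) k : ℚ) : ℂ)) =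
      (j : ℂ) • fun k => (((c • a : Ix X (2 * j) → ℚ) k : ℚ) : ℂ)
    rw [e, mulVec_smul, smul_comm (j : ℂ)]
    exact congrArg (fun x => (c : ℂ) • x) ha

theorem mem_hodgeSub {S : Type} [Fintype S] [DecidableEq S] {X : S → HKC} {j : ℕ}
    {v : Ix X (2 * j) → ℚ} : v ∈ hodgeSub X j ↔ IsHodge X j v := Iff.rfl

variable {F : Type} [Field F] {T : Type} [Fintype T] [DecidableEq T] (V : Family F T)
  {S : Type} [Fintype S] [DecidableEq S] (τ : S → T)

/-- Tate classes are linear combinations of Hodge classes, and conversely. -/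
theorem isTate_iff [CharZero F] (ℓ : ℕ) [Fact ℓ.Prime] (j : ℕ) (x : V.Ix τ (2 * j) → ℚ_[ℓ]) :
    V.IsTate τ ℓ j x ↔
      x ∈ vecSpan ℚ_[ℓ] (hodgeSub (fun s => V.X (τ s)) j : Set (V.Ix τ (2 * j) → ℚ)) := by
  have h1 := Run7.h869.MT.tate Run7.h475.MT.LOGEX Run7.h475.MT.LOGFIX Run7.h475.MT.INV
    Run7.h475.MT.SPAN Run7.h615.MT.t_KUN ℓ (GK F) T (fun t => (V.X t).d)
    (fun t => (V.X t).two_le) (fun t => (V.X t).B) (fun t => (V.X t).W) (V.E ℓ).G
    (V.E ℓ).logRel (V.E ℓ).two (cyc F ℓ) cyc_near' (V.E ℓ).form S τ j x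
  refine Iff.trans ?_ h1
  constructor
  · rintro ⟨Δ, hΔ, h⟩
    refine ⟨Δ, hΔ, fun σ hσ => ?_⟩
    have h2 := h σ hσ
    unfold Family.galT at h2
    rw [smul_mulVec] at h2
    exact h2
  · rintro ⟨Δ, hΔ, h⟩
    refine ⟨Δ, hΔ, fun σ hσ => ?_⟩
    unfold Family.galT
    rw [smul_mulVec]
    exact h σ hσ

end main

end

end Run7.h869.HF
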